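import Pool.Agent.TH133.Murre

/-!
# Transfer of Bloch-Beilinson filtrations
-/

open CategoryTheory AlgebraicGeometry

universe u v w u' v' w'

namespace Pool.Agent.K6.H99.BB

open Pool.Agent.H914 Pool.Agent.H914.VarClass Pool.Agent.H914.VarClass.Obj Pool.Agent.W492.BB
  Pool.Agent.W550.Corr Pool.Agent.TH133

variable {k : Type u} [Field k] {𝒱 : VarClass k} {C : TheoryData.{u, v, 0} 𝒱 ℚ}
  {K : Type w} [Field K] (H : WeilTheoryData.{u, v, w} C K)
  {k' : Type u'} [Field k'] {𝒱' : VarClass k'} {C' : TheoryData.{u', v', 0} 𝒱' ℚ}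
  {K' : Type w'} [Field K'] (H' : WeilTheoryData.{u', v', w'} C' K')

/-- A strong form of a Bloch-Beilinson filtration: the filtration has properties 1, 2 and 3 of a
Bloch-Beilinson filtration, every correspondence (of any degree, with any target) respects it, and
a correspondence from `X` to `Y` which acts as zero on `H^(2i-n)(X)` maps `F^n CH^i(X)` to the
`(n+1)`-st step. (This implies the properties 4 and 5.) -/
structure IsStrongBB (F : Filtration C) : Prop where
  bounded : IsBounded H F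
  mul : ∀ {X : 𝒱.Obj} {i j m n : ℕ} {x y : C.A X}, F.Mem i m x → F.Mem j n y →
    F.Mem (i + j) (m + n) (C.mul x y)
  act : ∀ {X Y : 𝒱.Obj} {i j n : ℕ} {Γ : C.A (X.prod Y)} {x : C.A X},
    C.Deg (X.dim + j - i) Γ → F.Mem i n x → F.Mem j n (C.act Γ x)
  shift : ∀ {X Y : 𝒱.Obj} {i j n : ℕ} {Γ : C.A (X.prod Y)} {x : C.A X},
    C.Deg (X.dim + j - i) Γ → Kills H Γ (2 * i - n) → F.Mem i n x → F.Mem j (n + 1) (C.act Γ x)

variable {H} in
/-- A strong Bloch-Beilinson filtration is a Bloch-Beilinson filtration. -/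
theorem IsStrongBB.isBB [hC : IsChowProj C] {F : Filtration C} (h : IsStrongBB H F) :
    IsBB H F where
  bounded := h.bounded
  multiplicative := by
    refine ⟨fun hx hy => h.mul hx hy, ?_, ?_⟩
    · intro X Y f i n y hy
      have h2 : C.act (C.cograph f) y = C.pull f y := C.act_cograph f y
      change F.Mem i n (C.pull f y)
      rw [← h2]
      refine h.act ?_ hy
      have h := C.push_mem (Obj.lift f (𝟙 X)) (C.one_mem X)
      have e1 : (0 : ℤ) + 1 * (((Y.prod X).dim : ℤ) - (X.dim : ℤ)) = Y.dim + (i : ℤ) - i := by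
        rw [dim_prod]; push_cast; ring
      rwa [e1] at h
    · intro X Y f i j n x hij hx
      have h2 : C.act (C.graph f) x = C.push f x := C.act_graph f x
      change F.Mem j n (C.push f x)
      rw [← h2]
      refine h.act ?_ hx
      have h := C.push_mem (Obj.lift (𝟙 X) f) (C.one_mem X)
      have e1 : (0 : ℤ) + 1 * (((X.prod Y).dim : ℤ) - (X.dim : ℤ)) = X.dim + (j : ℤ) - i := by
        rw [dim_prod]; push_cast; omega
      rwa [e1] at h
  motivic := by
    intro _ X i n Γ hΓ hk x hx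
    exact h.shift (by rw [add_sub_cancel_right]; exact hΓ) hk hx

/-- For each correspondence `Γ` from `W` to `V` there is a correspondence `Γ'` of the same degree from
`Z W` to `Z V` which induces `Γ` on Chow groups, and which acts as zero on the cohomology in degree
`m` if `Γ` does. -/
def TransfersCorr (Z : 𝒱.Obj → 𝒱'.Obj) (α : ∀ W : 𝒱.Obj, C.A W →ₐ[ℚ] C'.A (Z W)) : Prop :=
  ∀ (W V : 𝒱.Obj) (e : ℤ) (Γ : C.A (W.prod V)), C.Deg (W.dim + e) Γ →
    ∃ Γ' : C'.A ((Z W).prod (Z V)), C'.Deg ((Z W).dim + e) Γ' ∧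
      (∀ x : C.A W, α V (C.act Γ x) = C'.act Γ' (α W x)) ∧
      ∀ m : ℤ, Kills H Γ m → Kills H' Γ' m

/-- The varieties `W` of the class `𝒱` over the field `k` are transferred to varieties `Z W` of the class
`𝒱'` over the field `k'`, with injective homomorphisms `α W : CH(W) → CH(Z W)`. In the intended use
`k` is a subfield of `k'`, the variety `W` becomes over `k'` the image of `Z W` under a morphism `f`, and
`α W` is the extension of the field of definition followed by `f^*`: it respects codimensions and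
homological equivalence, it is injective, and correspondences can be transferred (if `f_* h = q` for a
class `h` and a number `q ≠ 0`, take for `Γ'` the composition of `q⁻¹ f_* (h · _)`, `Γ` and the
pull-back to `Z V`). -/
structure IsTransfer (Z : 𝒱.Obj → 𝒱'.Obj) (α : ∀ W : 𝒱.Obj, C.A W →ₐ[ℚ] C'.A (Z W)) : Prop where
  mem : ∀ (W : 𝒱.Obj) (i : ℤ) (x : C.A W), C.Deg i x → C'.Deg i (α W x)
  inj : ∀ (W : 𝒱.Obj) (x : C.A W), α W x = 0 → x = 0
  hom : ∀ (W : 𝒱.Obj) (x : C.A W), H'.cl (α W x) = 0 ↔ H.cl x = 0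
  corr : TransfersCorr H H' Z α

variable {H H'} {Z : 𝒱.Obj → 𝒱'.Obj} {α : ∀ W : 𝒱.Obj, C.A W →ₐ[ℚ] C'.A (Z W)}

/-- The transferred filtration. -/
def transfer (α : ∀ W : 𝒱.Obj, C.A W →ₐ[ℚ] C'.A (Z W)) (F : Filtration C') : Filtration C where
  F W i n := C.gr W i ⊓ (F.F (Z W) i n).comap (α W).toLinearMap
  le_gr _ _ _ := inf_le_left
  anti _ _ _ := inf_le_inf le_rfl (Submodule.comap_mono (F.anti _ _ _))

lemma mem_transfer {F : Filtration C'} {W : 𝒱.Obj} {i n : ℕ} {x : C.A W} :
    (transfer α F).Mem i n x ↔ C.Deg i x ∧ F.Mem i n (α W x) := Iff.rfl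

variable [hC : IsChowProj C]

include hC in
/-- **Strong Bloch-Beilinson filtrations can be transferred.** -/
theorem isStrongBB_transfer (hT : IsTransfer H H' Z α) {F : Filtration C'}
    (hF : IsStrongBB H' F) : IsStrongBB H (transfer α F) where
  bounded := by
    refine ⟨?_, ?_, ?_⟩
    · intro W i x
      rw [mem_transfer]
      exact ⟨fun h => h.1, fun h => ⟨h, (hF.bounded.zero _ _ _).2 (hT.mem _ _ _ h)⟩⟩
    · intro W i x
      rw [mem_transfer, hF.bounded.one, hT.hom]
      exact ⟨fun h => ⟨h.1, h.2.2⟩, fun h => ⟨h.1, hT.mem _ _ _ h.1, h.2⟩⟩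
    · intro W i x hx
      exact hT.inj _ _ (hF.bounded.top _ _ _ hx.2)
  mul := by
    intro X i j m n x y hx hy
    refine ⟨?_, ?_⟩
    · have := C.mul_mem hx.1 hy.1
      exact_mod_cast this
    · change F.Mem _ _ (α X (x * y))
      rw [map_mul]
      exact hF.mul hx.2 hy.2
  act := by
    intro X Y i j n Γ x hΓ hx
    have hΓ' : C.Deg (X.dim + ((j : ℤ) - i)) Γ := by rw [← add_sub_assoc]; exact hΓ
    obtain ⟨Γ', h1, h2, _⟩ := hT.corr X Y _ Γ hΓ'
    refine ⟨?_, ?_⟩
    · have := act_mem' C hΓ' hx.1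
      rwa [add_sub_cancel] at this
    · change F.Mem _ _ (α Y (C.act Γ x))
      rw [h2]
      exact hF.act (by rwa [← add_sub_assoc] at h1) hx.2
  shift := by
    intro X Y i j n Γ x hΓ hk hx
    have hΓ' : C.Deg (X.dim + ((j : ℤ) - i)) Γ := by rw [← add_sub_assoc]; exact hΓ
    obtain ⟨Γ', h1, h2, h3⟩ := hT.corr X Y _ Γ hΓ'
    refine ⟨?_, ?_⟩
    · have := act_mem' C hΓ' hx.1
      rwa [add_sub_cancel] at this
    · change F.Mem _ _ (α Y (C.act Γ x))
      rw [h2]
      exact hF.shift (by rwa [← add_sub_assoc] at h1) (h3 _ hk) hx.2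

end Pool.Agent.K6.H99.BB
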